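import Pool.Agent.T6.H79.SO.Final2

/-!
# For which localities are single orbit characterizations of bounded locality available?

`F ⊆ K` are finite fields; `P` runs through the affine-invariant properties of functions `K → F` (not all
functions) with a `k`-local characterization, `k'(P)` is the least locality of a single orbit
characterization. For `|F| = 2` the numbers `k'(P)` are bounded if and only if `k ≤ 5`, and then by `4`. If
`|F|` varies, they are bounded (by `3`) for `k ≤ 3`, and not bounded for `k ≥ 5`.

`k ≤ 3`: `P` is `0`, or the constants, or it consists of functions `f` with `f - f(0)` additive, and the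
constraints are `φ(γ a) = μ φ(a)` for the pairs `(γ, μ)` of a subgroup of `K^* × F^*`, which is cyclic.
`|F| = 2`, `k ≤ 5`: the remaining constraints say that all `Δ_u Δ_{γ u} f` vanish; for functions with
vanishing third differences the `γ` with this property form a subgroup of `K^*` (every element of the
field is a square), and subgroups are cyclic. For `k = 5` and `F = K` the constraints
`f(γδ) - γ f(δ) - δ f(γ) + γδ f(1) - (1 - γ)(1 - δ) f(0) = 0` are used, with `γ`, `δ` in subfields of
coprime degrees.
-/

set_option autoImplicit false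

namespace Pool.Agent.Results.MP_cb1103_lc.LocalityThresholds

open H79SO

/-- `kPrime P` is the least `k'` such that `P` has a `k'`-single orbit characterization.
1. If `k ≤ 3`, `P`, not all functions `K → F`, is affine-invariant and has a `k`-local characterization, then
`k'(P) ≤ 3`.
2. If `F` has two elements, the same is true for `k ≤ 5` with the bound `4`.
3. If `F` has two elements, then the `k'(P)` are bounded, for fixed `k`, if and only if `k ≤ 5`.
4. For every finite field `F` and `k ≥ 6` the `k'(P)` are not bounded (`K` running through the finite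
extensions of `F`).
5. For `k ≥ 5` the `k'(P)` are not bounded if `F` varies, already for `K = F`. -/
theorem result :
    (∀ (F K : Type) [Field F] [Field K] [Finite F] [Finite K] [Algebra F K] (k : ℕ)
      (P : Submodule F (K → F)), k ≤ 3 → AffInv P → P ≠ ⊤ → LocalChar k P →
        SingleOrbit (kPrime P) P ∧ kPrime P ≤ 3) ∧
    (∀ (F K : Type) [Field F] [Field K] [Finite K] [Algebra F K] (k : ℕ)
      (P : Submodule F (K → F)), Nat.card F = 2 → k ≤ 5 → AffInv P → P ≠ ⊤ → LocalChar k P →
        SingleOrbit (kPrime P) P ∧ kPrime P ≤ 4) ∧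
    (∀ (F : Type) [Field F], Nat.card F = 2 → ∀ k : ℕ,
      ((∃ B : ℕ, ∀ (K : Type) [Field K] [Finite K] [Algebra F K] (P : Submodule F (K → F)),
        AffInv P → P ≠ ⊤ → LocalChar k P → kPrime P ≤ B) ↔ k ≤ 5)) ∧
    (∀ (F : Type) [Field F] [Finite F] (k : ℕ), 6 ≤ k →
      ¬ ∃ B : ℕ, ∀ (K : Type) [Field K] [Finite K] [Algebra F K] (P : Submodule F (K → F)),
        AffInv P → P ≠ ⊤ → LocalChar k P → kPrime P ≤ B) ∧
    (∀ k : ℕ, 5 ≤ k → ¬ ∃ B : ℕ, ∀ (K : Type) [Field K] [Finite K] (P : Submodule K (K → K)),
        AffInv P → P ≠ ⊤ → LocalChar k P → kPrime P ≤ B) := by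
  have h6 : ∀ (F : Type) [Field F] [Finite F] (k : ℕ), 6 ≤ k →
      ¬ ∃ B : ℕ, ∀ (K : Type) [Field K] [Finite K] [Algebra F K] (P : Submodule F (K → F)),
        AffInv P → P ≠ ⊤ → LocalChar k P → kPrime P ≤ B := by
    rintro F _ _ k hk ⟨B, hB⟩
    obtain ⟨K, i1, i2, i3, P, h1, h2, h3, h4⟩ := unbounded6 F k hk B
    have := hB K P h1 h2 h3
    omega
  refine ⟨?_, ?_, ?_, h6, ?_⟩
  · intro F K _ _ _ _ _ k P hk hP htop hl
    exact ternary' k hk P hP htop hl
  · intro F K _ _ _ _ k P hF hk hP htop hl
    exact binary' hF k hk P hP htop hl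
  · intro F _ hF k
    haveI : Finite F := Nat.finite_of_card_ne_zero (by rw [hF]; norm_num)
    constructor
    · intro h
      by_contra hk
      exact h6 F k (by omega) h
    · intro hk
      exact ⟨4, fun K _ _ _ P hP htop hl => (binary' hF k hk P hP htop hl).2⟩
  · rintro k hk ⟨B, hB⟩
    obtain ⟨K, i1, i2, P, h1, h2, h3, h4⟩ := unbounded5 k hk B
    have := hB K P h1 h2 h3
    omega

end Pool.Agent.Results.MP_cb1103_lc.LocalityThresholds
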