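import Pool.Agent.T6.H79.SO.Final

/-!
# Local characterizations and single orbit characterizations of affine-invariant properties

`F ⊆ K` are finite fields, `K` of order `p ^ N`. For an affine-invariant property `P` of functions
`K → F` (an `F`-subspace stable under `x ↦ a x + b`) let `k'(P)` be the least locality of a single orbit
characterization. We show that `k'(P)` is not bounded by a function of the locality `k` of a local
characterization and of the order of `F` (Q1, Q2), with lower bounds which grow faster than any fixed
power of `log log |K|` when `k` grows, and that `k'(P)` is at most polylogarithmic in `|K|` for fixed `k`.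

Construction: let `γ_1, δ_1, …, γ_n, δ_n` be elements of subfields of `K` of pairwise coprime degrees. For
every `e`-subset `A` of `{1, …, n}` there is a word of weight at most `6 · 4 ^ (e - 1)` which is orthogonal
to the constants and to the additive functions, and whose value at `x ^ (p ^ i + p ^ j)` is the product of
the `(γ_m ^ (p ^ i) - γ_m ^ (p ^ j)) (δ_m ^ (p ^ i) - δ_m ^ (p ^ j))`, `m ∈ A`. `P` is the dual of the
orbits of these words. For suitable `i_A`, `j_B` (Chinese remainder theorem) all functions
`Tr (β x ^ (p ^ i_A + p ^ j_B))`, `A ≠ B`, are in `P`, and for `A = B` not all are. If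
`(α_1, …, α_k'; S)` is a single orbit characterization, this yields vectors `r_A`, `s_B` in `K ^ k'` with
`r_A · s_B = 0` if and only if `A ≠ B`, hence `k'` is at least the number of the `e`-subsets.

Upper bound: one constraint of the characterization forces all `(k - 1)`-fold differences to vanish,
so it leaves a space of dimension at most `C(N + k - 2, k - 2)`; then constraints are added greedily.
-/

set_option autoImplicit false

namespace Pool.Agent.Results.MP_cb1103_lc.SubfieldGap

open H79SO

/-- `kPrime P` is the least `k'` such that `P` has a `k'`-single orbit characterization.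
1. (negative answer to Q1 and Q2) For every finite field `F` the numbers `k'(P)` are not bounded, `P` running
through the affine-invariant properties (of functions `K → F`, not all functions) which have a `6`-local
characterization.
2. If `K` has order `p ^ N` and `N` has at least `2 n` distinct prime factors, and `1 ≤ e ≤ n`, then there is
an affine-invariant `P`, not all functions, with a `6 · 4 ^ (e - 1)`-local characterization and
`C(n, e) ≤ k'(P)`.
3. For every finite field `F` and `1 ≤ e ≤ n` there are an extension `K` of degree at most
`2 ^ (n (2 n + 1))` and such a `P`.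
4. (upper bound) If `K` has order `p ^ N` and `P`, not all functions, is affine-invariant and has a `k`-local
characterization, then it has a single orbit characterization, and `k'(P) ≤ k (1 + C(N + k - 2, k - 2))`
(where `k - 2` is read as `0` if `k ≤ 2`). -/
theorem result :
    (∀ (F : Type) [Field F] [Finite F], ¬ ∃ B : ℕ, ∀ (K : Type) [Field K] [Finite K] [Algebra F K]
      (P : Submodule F (K → F)), AffInv P → P ≠ ⊤ → LocalChar 6 P → kPrime P ≤ B) ∧
    (∀ (F K : Type) [Field F] [Field K] [Finite F] [Finite K] [Algebra F K] (p N n e : ℕ),
      p.Prime → Nat.card K = p ^ N → 2 * n ≤ N.primeFactors.card → 1 ≤ e → e ≤ n →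
      ∃ P : Submodule F (K → F), AffInv P ∧ P ≠ ⊤ ∧ LocalChar (6 * 4 ^ (e - 1)) P ∧
        n.choose e ≤ kPrime P) ∧
    (∀ (F : Type) [Field F] [Finite F] (n e : ℕ), 1 ≤ e → e ≤ n →
      ∃ t : ℕ, t ≤ 2 ^ (n * (2 * n + 1)) ∧
        ∃ (K : Type) (_ : Field K) (_ : Finite K) (_ : Algebra F K), Module.finrank F K = t ∧
          ∃ P : Submodule F (K → F), AffInv P ∧ P ≠ ⊤ ∧ LocalChar (6 * 4 ^ (e - 1)) P ∧
            n.choose e ≤ kPrime P) ∧
    (∀ (F K : Type) [Field F] [Field K] [Finite F] [Finite K] [Algebra F K] (p N k : ℕ)
      (P : Submodule F (K → F)), p.Prime → Nat.card K = p ^ N → AffInv P → P ≠ ⊤ →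
      LocalChar k P →
        SingleOrbit (kPrime P) P ∧ kPrime P ≤ k * (1 + (N + (k - 2)).choose (k - 2))) := by
  refine ⟨?_, ?_, ?_, ?_⟩
  · rintro F _ _ ⟨B, hB⟩
    obtain ⟨t, _, K, i1, i2, i3, _, P, h1, h2, h3, h4⟩ :=
      lower_degree F (B + 1) 1 (le_refl 1) (by omega)
    have := hB K P h1 h2 h3
    rw [Nat.choose_one_right] at h4
    omega
  · intro F K _ _ _ _ _ p N n e hp hN hω he hen
    exact lower_primes p N hp hN n e he hen hω
  · intro F _ _ n e he hen
    exact lower_degree F n e he hen
  · intro F K _ _ _ _ _ p N k P hp hN hP htop hk
    exact upper' p N hp hN k P hP htop hk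

end Pool.Agent.Results.MP_cb1103_lc.SubfieldGap
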